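import Pool.Agent.R497.TD.Defs

/-! TD-CORER (helper235): from `a` in `[1, 2]` to all real `a`. -/

set_option autoImplicit false

namespace Pool.Agent.R235.TD

open MeasureTheory Filter Finset
open Pool.Agent.Y957.MC (IsFlow flowInv smo)
open Pool.Agent.R497.TD

universe u

variable {X : Type u} [MeasurableSpace X] {μ : Measure X}

theorem flow_scale {σ : ℝ → X → X} (h : IsFlow μ σ) (A : ℝ) : IsFlow μ fun t => σ (A * t) where
  meas := by
    have h1 : Measurable fun p : ℝ × X => ((A * p.1, p.2) : ℝ × X) := by fun_prop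
    exact h.meas.comp h1
  zero x := by simp only [mul_zero]; exact h.zero x
  add s t x := by
    have := h.add (A * s) (A * t) x
    simp only [mul_add]
    exact this
  mp t := h.mp (A * t)

theorem niceG_scale {σ : ℝ → X → X} {g : X → ℝ} (h : NiceG σ g) {A : ℝ} (hA : A ≠ 0) :
    NiceG (fun t => σ (A * t)) g := by
  obtain ⟨hm, C, h1, h2, h3⟩ := h
  have hA' : 0 < |A| := abs_pos.2 hA
  have hi : 0 < |A|⁻¹ := inv_pos.2 hA'
  have hC := le_abs_self C
  have hC0 := abs_nonneg C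
  refine ⟨hm, |C| * (|A| + |A|⁻¹ + 1), fun x => ?_, fun u v x => ?_, fun u v x => ?_⟩
  · have := h1 x
    nlinarith [mul_nonneg hC0 hA'.le, mul_nonneg hC0 hi.le]
  · refine (h2 (A * u) (A * v) x).trans ?_
    rw [← mul_sub, abs_mul]
    have h4 : C * (|A| * |u - v|) ≤ |C| * (|A| * |u - v|) := by gcongr
    refine h4.trans ?_
    have h5 : |C| * |A| ≤ |C| * (|A| + |A|⁻¹ + 1) := by
      gcongr
      linarith
    calc |C| * (|A| * |u - v|) = (|C| * |A|) * |u - v| := by ring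
      _ ≤ _ := by gcongr
  · rw [intervalIntegral.integral_comp_mul_left (fun s => g (σ s x)) hA, smul_eq_mul, abs_mul,
      abs_inv]
    have h4 := h3 (A * u) (A * v) x
    have h5 : |A|⁻¹ * |∫ r in A * u..A * v, g (σ r x)| ≤ |A|⁻¹ * |C| :=
      mul_le_mul_of_nonneg_left (h4.trans hC) hi.le
    refine h5.trans ?_
    nlinarith [mul_nonneg hC0 hA'.le, mul_nonneg hC0 hi.le]

theorem niceW_scale {d : ℕ} {B : ℕ → ℝ → X → ℂ} (h : NiceW d B) (A : ℝ) :
    NiceW d fun n a x => B n (A * a) x := by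
  obtain ⟨hm, C, h1, h2⟩ := h
  have hC := le_abs_self C
  have hC0 := abs_nonneg C
  have hA0 := abs_nonneg A
  refine ⟨fun n => ?_, |C| * (|A| + 1), fun n a x => ?_, fun n hn a a' x => ?_⟩
  · have h3 : Measurable fun p : ℝ × X => ((A * p.1, p.2) : ℝ × X) := by fun_prop
    exact (hm n).comp h3
  · refine (h1 n (A * a) x).trans ?_
    nlinarith [mul_nonneg hC0 hA0]
  · refine (h2 n hn (A * a) (A * a') x).trans ?_
    rw [← mul_sub, abs_mul]
    have h4 : C * (n : ℝ) ^ (d - 1) * (|A| * |a - a'|) ≤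
        |C| * (n : ℝ) ^ (d - 1) * (|A| * |a - a'|) := by gcongr
    refine h4.trans ?_
    have h5 : |C| * |A| ≤ |C| * (|A| + 1) := by
      gcongr
      linarith
    calc |C| * (n : ℝ) ^ (d - 1) * (|A| * |a - a'|)
        = (|C| * |A|) * ((n : ℝ) ^ (d - 1) * |a - a'|) := by ring
      _ ≤ (|C| * (|A| + 1)) * ((n : ℝ) ^ (d - 1) * |a - a'|) := by gcongr
      _ = _ := by ring

/-- the conclusion at the time `a` -/
def Concl (μ : Measure X) (σ : ℝ → X → X) (g : X → ℝ) (P : Polynomial ℝ) (B : ℕ → ℝ → X → ℂ)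
    (a : ℝ) : Prop :=
  ∀ᵐ x ∂μ, Tendsto (fun N : ℕ => (1 / (N : ℂ)) *
    ∑ n ∈ Icc 1 N, B n a x * (g (σ (a * P.eval (n : ℝ)) x) : ℂ)) atTop (nhds 0)

theorem step_pos (h : S_CORE.{u}) [IsProbabilityMeasure μ] {σ : ℝ → X → X} {g : X → ℝ}
    {P : Polynomial ℝ} {B : ℕ → ℝ → X → ℂ} (hσ : IsFlow μ σ) (hg : NiceG σ g)
    (hd : 0 < P.natDegree) (hl : 0 < P.leadingCoeff) (hB : NiceW P.natDegree B) :
    ∀ᵐ a : ℝ, Concl μ σ g P B a := by
  have key : ∀ A : ℝ, A ≠ 0 → ∀ᵐ a : ℝ, A⁻¹ * a ∈ Set.Icc (1 : ℝ) 2 → Concl μ σ g P B a := by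
    intro A hA
    have h1 := h X μ (fun t => σ (A * t)) g P (fun n a x => B n (A * a) x) (flow_scale hσ A)
      (niceG_scale hg hA) hd hl (niceW_scale hB A)
    have h2 : ∀ᵐ b : ℝ, b ∈ Set.Icc (1 : ℝ) 2 → Concl μ σ g P B (A * b) := by
      rw [ae_restrict_iff' measurableSet_Icc] at h1
      filter_upwards [h1] with b hb hbm
      have h3 := hb hbm
      unfold Concl
      filter_upwards [h3] with x hx
      have e : ∀ n : ℕ, A * (b * P.eval (n : ℝ)) = A * b * P.eval (n : ℝ) := fun n => by ring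
      simpa only [e] using hx
    have h3 := (Measure.quasiMeasurePreserving_smul (volume : Measure ℝ) (inv_ne_zero hA)).ae h2
    filter_upwards [h3] with a ha hm
    have h4 := ha (by simpa only [smul_eq_mul] using hm)
    simpa only [smul_eq_mul, mul_inv_cancel_left₀ hA] using h4
  have h1 : ∀ᵐ a : ℝ, ∀ i : ℤ, (((2 : ℝ) ^ i)⁻¹ * a ∈ Set.Icc (1 : ℝ) 2 → Concl μ σ g P B a) ∧
      ((-(2 : ℝ) ^ i)⁻¹ * a ∈ Set.Icc (1 : ℝ) 2 → Concl μ σ g P B a) := by
    rw [ae_all_iff]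
    intro i
    have h2 : (2 : ℝ) ^ i ≠ 0 := by positivity
    filter_upwards [key _ h2, key _ (neg_ne_zero.2 h2)] with a ha hb
    exact ⟨ha, hb⟩
  have h0 : ∀ᵐ a : ℝ, a ≠ 0 := by
    rw [ae_iff]
    simp
  filter_upwards [h1, h0] with a ha ha0
  obtain ⟨i, hi⟩ := exists_mem_Ico_zpow (abs_pos.2 ha0) (one_lt_two : (1 : ℝ) < 2)
  have hp : (0 : ℝ) < 2 ^ i := by positivity
  have hi2 : |a| < 2 * 2 ^ i := by
    have := hi.2
    rw [zpow_add_one₀ (by norm_num)] at this
    linarith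
  have hmem : ((2 : ℝ) ^ i)⁻¹ * |a| ∈ Set.Icc (1 : ℝ) 2 := by
    constructor
    · rw [inv_mul_eq_div, le_div_iff₀ hp, one_mul]
      exact hi.1
    · rw [inv_mul_eq_div, div_le_iff₀ hp]
      exact hi2.le
  rcases lt_or_gt_of_ne ha0 with hneg | hpos
  · refine (ha i).2 ?_
    rw [abs_of_neg hneg] at hmem
    rw [inv_neg, neg_mul_comm]
    exact hmem
  · refine (ha i).1 ?_
    rw [abs_of_pos hpos] at hmem
    exact hmem

theorem t_CORER (h : S_CORE.{u}) : S_CORER.{u} := by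
  intro X _ μ _ σ g P B hσ hg hd hB
  rcases lt_trichotomy 0 P.leadingCoeff with hl | hl | hl
  · exact step_pos h hσ hg hd hl hB
  · exfalso
    have := Polynomial.leadingCoeff_eq_zero.1 hl.symm
    rw [this] at hd
    simp at hd
  · have h1 := step_pos (P := -P) (B := B) (σ := fun t => σ (-1 * t)) h (flow_scale hσ (-1))
      (niceG_scale hg (by norm_num)) (by rwa [Polynomial.natDegree_neg])
      (by rw [Polynomial.leadingCoeff_neg]; linarith) (by rwa [Polynomial.natDegree_neg])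
    filter_upwards [h1] with a ha
    unfold Concl at ha
    filter_upwards [ha] with x hx
    have e : ∀ n : ℕ, -1 * (a * (-P).eval (n : ℝ)) = a * P.eval (n : ℝ) := fun n => by
      rw [Polynomial.eval_neg]; ring
    simpa only [e] using hx

end Pool.Agent.R235.TD

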